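import Pool.Agent.H56.Zt.Defs
import Pool.Agent.H56.RE.REX

/-!
# Compositions with germs of plane curves: definitions
-/

set_option autoImplicit false

namespace Pool.Agent.H56.Zt

open Finset
open Pool.Agent.H56.CT (R2 co Str Res)

/-- At a point of the product of the resolutions of `f_1, …, f_m` with the types `S_1, …, S_m` the
pull back of `h(f_1(u_1, v_1), …, f_m(u_m, v_m))` is `h(…, u_k^{N1} v_k^{N2}, …)` up to units: its
exponents.  The variable `(k, δ)` has the number `2 k + δ`. -/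
noncomputable def pbE {m r : ℕ} (a : Fin r → (Fin m →₀ ℕ)) (S : Fin m → Str) :
    Fin r → (Fin (m * 2) →₀ ℕ) :=
  fun i => Finsupp.equivFunOnFinite.symm (fun j =>
    (if (finProdFinEquiv.symm j).2 = 0 then (S (finProdFinEquiv.symm j).1).N1
      else (S (finProdFinEquiv.symm j).1).N2) * a i (finProdFinEquiv.symm j).1)

/-- The weights: the pull back of the form `∏ du_k ∧ dv_k` is
`∏ u_k^{ν1 - 1} v_k^{ν2 - 1} du_k ∧ dv_k` up to a unit. -/
def pbW {m : ℕ} (S : Fin m → Str) : Fin (m * 2) → ℚ :=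
  fun j => if (finProdFinEquiv.symm j).2 = 0 then ((S (finProdFinEquiv.symm j).1).ν1 : ℚ)
    else ((S (finProdFinEquiv.symm j).1).ν2 : ℚ)

/-- The strata over the origin of a resolution tree of the germ of a plane curve `f`, counted with
their Euler characteristics.  (Resolution trees exist: `res_exists`.) -/
noncomputable def resM (f : R2) (hf : f ≠ 0) (h0 : co f 0 0 = 0) : Str →₀ ℤ :=
  (Pool.Agent.H56.RE.res_exists f hf h0).choose

/-- `G = h(f_1(u_1, v_1), …, f_m(u_m, v_m))`, `m ≥ 1`, where `h = ∑ κ_i x^{a_i}` is nondegenerate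
with respect to the compact faces of its Newton polyhedron and convenient, and `f_1, …, f_m` are
arbitrary germs of plane curves, `f_k(0) = 0`, `f_k ≠ 0`. -/
structure Comp {m : ℕ} (G : MvPowerSeries (Fin m × Fin 2) ℂ) where
  pos : 0 < m
  /-- the number of exponents -/
  r : ℕ
  /-- the exponents of `h` -/
  a : Fin r → (Fin m →₀ ℕ)
  inj : Function.Injective a
  ne : ∀ i, a i ≠ 0
  /-- the coefficients of `h` -/
  κ : Fin r → ℂ
  κ0 : ∀ i, κ i ≠ 0
  nd : NDc a κ
  conv : ∀ j, ∃ i k, a i = Finsupp.single j k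
  /-- the germs of plane curves -/
  f : Fin m → R2
  f0 : ∀ k, co (f k) 0 0 = 0
  fne : ∀ k, f k ≠ 0
  eq : G = ∑ i, MvPowerSeries.C (κ i) *
    ∏ k, (MvPowerSeries.rename (fun δ : Fin 2 => (k, δ)) (f k)) ^ a i k

/-- The local topological zeta function of `G`: the sum over the tuples `S = (S_1, …, S_m)` of types
of points of the resolutions of `f_1, …, f_m`, with multiplicity `∏ M_k(S_k)`, of the local
topological zeta functions of `h(u_1^{N1} v_1^{N2}, …)` for the form
`∏ u_k^{ν1 - 1} v_k^{ν2 - 1} du_k ∧ dv_k`. -/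
noncomputable def Comp.Z {m : ℕ} {G : MvPowerSeries (Fin m × Fin 2) ℂ} (T : Comp G) : RatFunc ℂ :=
  ∑ S ∈ Fintype.piFinset (fun k => (resM (T.f k) (T.fne k) (T.f0 k)).support),
    (∏ k, ((resM (T.f k) (T.fne k) (T.f0 k) (S k) : ℤ) : RatFunc ℂ)) * ZL (pbW S) (pbE T.a S)

/-- In suitable formal coordinates, and with `e` additional variables which do not occur in `F`,
the germ of `F` at `p` is a unit times a product of powers `G_j^{N_j}` of compositions `G_j` in
disjoint sets of variables. -/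
structure CPt {n : ℕ} (F : MvPolynomial (Fin n) ℂ) (p : Fin n → ℂ) where
  /-- the number of additional variables -/
  e : ℕ
  /-- the change of coordinates -/
  φ : MvPowerSeries (Fin n ⊕ Fin e) ℂ ≃ₐ[ℂ] MvPowerSeries (Fin n ⊕ Fin e) ℂ
  /-- the unit -/
  u : MvPowerSeries (Fin n ⊕ Fin e) ℂ
  hu : IsUnit u
  /-- the number of factors -/
  q : ℕ
  /-- the numbers of plane curves of the factors -/
  m : Fin q → ℕ
  /-- the variables of the factors -/
  ι : ∀ j, Fin (m j) × Fin 2 ↪ Fin n ⊕ Fin e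
  disj : ∀ j j', j ≠ j' → ∀ x y, ι j x ≠ ι j' y
  /-- the exponents of the factors -/
  N : Fin q → ℕ
  Npos : ∀ j, 0 < N j
  /-- the factors -/
  G : ∀ j, MvPowerSeries (Fin (m j) × Fin 2) ℂ
  /-- the factors are compositions with germs of plane curves -/
  T : ∀ j, Comp (G j)
  eq : φ (MvPowerSeries.rename Sum.inl ((MvPolynomial.aeval (fun j => MvPolynomial.X j +
      MvPolynomial.C (p j)) F : MvPolynomial (Fin n) ℂ) : MvPowerSeries (Fin n) ℂ)) =
    u * ∏ j, (MvPowerSeries.rename (ι j) (G j)) ^ (N j)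

/-- The local topological zeta function `∏_j Z_{G_j}(N_j s)` of `F` at `p`. -/
noncomputable def CPt.Z {n : ℕ} {F : MvPolynomial (Fin n) ℂ} {p : Fin n → ℂ} (T : CPt F p) :
    RatFunc ℂ :=
  ∏ j, aff (T.N j) 0 (T.T j).Z

end Pool.Agent.H56.Zt
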