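import Mathlib
import Pool.Agent.H60.ConeExist

/-!
# The strong monodromy conjecture: common definitions of the hand-ins

* `FE F b P`: the functional equation `P(s) F^{s+1} = b(s) F^s`.
* `NDa a κ`, `NDc a κ`: `h = ∑ κ_i x^{a_i}` is nondegenerate (all faces, or compact faces only).
* `ZG ν a`, `ZL ν a`: the global and the local topological zeta function of a nondegenerate
  polynomial `h = ∑ κ_i x^{a_i}` with respect to the form `∏ x_j^{ν_j - 1} dx_j`, by the formula of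
  Denef and Loeser (J. Amer. Math. Soc. 5 (1992), Théorème 5.3).
-/

set_option autoImplicit false

namespace Pool.Agent.H56.Zt

open Finset

/-- The differential operators `P(s) = ∑_β p_β(x, s) ∂^β` with polynomial coefficients which depend
polynomially on `s`. -/
abbrev Op (n : ℕ) : Type := (Fin n →₀ ℕ) →₀ MvPolynomial (Fin n) (Polynomial ℂ)

/-- The functional equation `P(s) F^{s+1} = b(s) F^s`, at `s = k = 0, 1, 2, …`. -/
def FE {n : ℕ} (F : MvPolynomial (Fin n) ℂ) (b : Polynomial ℂ) (P : Op n) : Prop :=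
  ∀ k : ℕ, P.sum (fun β p => MvPolynomial.map (Polynomial.evalRingHom (k : ℂ)) p *
      ((List.finRange n).map fun j => ((MvPolynomial.pderiv j : Derivation ℂ
        (MvPolynomial (Fin n) ℂ) (MvPolynomial (Fin n) ℂ)).toLinearMap) ^ β j).prod (F ^ (k + 1))) =
    MvPolynomial.C (b.eval (k : ℂ)) * F ^ k

variable {n r : ℕ}

/-- `1 + dim t`, for the convex hull `t` of the `a_i`, `i ∈ t`: the rank of the vectors
`(1, a_i)`. -/
noncomputable def rk (a : Fin r → (Fin n →₀ ℕ)) (t : Finset (Fin r)) : ℕ :=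
  Module.finrank ℝ (Submodule.span ℝ
    ((fun i => Sum.elim (fun _ : Unit => (1 : ℝ)) (fun j => (a i j : ℝ))) '' (t : Set (Fin r))))

/-- The cone `D_t` of all vectors `k ≥ 0` such that `a_i · k` is minimal for all `i ∈ t`. -/
def Dt (a : Fin r → (Fin n →₀ ℕ)) (t : Finset (Fin r)) : Set (Fin n → ℝ) :=
  {k | (∀ j, 0 ≤ k j) ∧ ∀ i ∈ t, ∀ l, ∑ j, (a i j : ℝ) * k j ≤ ∑ j, (a l j : ℝ) * k j}

/-- A decomposition of the cone `D_t` into simplicial cones of dimension `d = n - dim t` with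
generators in `ℕ^n`: contained in `D_t`, with pairwise disjoint interiors, and covering `D_t` as
soon as `D_t` contains `d` linearly independent vectors (otherwise there are no cones). -/
structure Cones (a : Fin r → (Fin n →₀ ℕ)) (t : Finset (Fin r)) where
  /-- the number of cones -/
  m : ℕ
  /-- the generators of the cones -/
  w : Fin m → Fin (n + 1 - rk a t) → Fin n → ℕ
  mem : ∀ C c, (fun j => (w C c j : ℝ)) ∈ Dt a t
  indep : ∀ C, LinearIndependent ℝ (fun c j => (w C c j : ℝ))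
  disj : ∀ C C', C ≠ C' → Disjoint
    {k : Fin n → ℝ | ∃ x : Fin (n + 1 - rk a t) → ℝ, (∀ c, 0 < x c) ∧
      k = ∑ c, x c • (fun j => (w C c j : ℝ))}
    {k : Fin n → ℝ | ∃ x : Fin (n + 1 - rk a t) → ℝ, (∀ c, 0 < x c) ∧
      k = ∑ c, x c • (fun j => (w C' c j : ℝ))}
  cover : (∃ v : Fin (n + 1 - rk a t) → Fin n → ℝ,
      LinearIndependent ℝ v ∧ ∀ c, v c ∈ Dt a t) →
    ∀ k ∈ Dt a t, ∃ C, ∃ x : Fin (n + 1 - rk a t) → ℝ, (∀ c, 0 ≤ x c) ∧
      k = ∑ c, x c • (fun j => (w C c j : ℝ))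

/-- A triangulation of the convex hull of the `a_i`, `i ∈ t`, by simplices of full dimension with
vertices among the `a_i`: with pairwise disjoint interiors, and covering the convex hull. -/
structure Tri (a : Fin r → (Fin n →₀ ℕ)) (t : Finset (Fin r)) where
  /-- the vertex sets of the simplices -/
  S : Finset (Finset (Fin r))
  sub : ∀ σ ∈ S, σ ⊆ t
  card : ∀ σ ∈ S, σ.card = rk a t
  indep : ∀ σ ∈ S, LinearIndependent ℝ
    (fun i : σ => Sum.elim (fun _ : Unit => (1 : ℝ)) (fun j => (a i j : ℝ)))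
  disj : ∀ σ ∈ S, ∀ σ' ∈ S, σ ≠ σ' → Disjoint
    {p : Fin n → ℝ | ∃ x : Fin r → ℝ, (∀ i ∈ σ, 0 < x i) ∧ ∑ i ∈ σ, x i = 1 ∧
      p = ∑ i ∈ σ, x i • (fun j => (a i j : ℝ))}
    {p : Fin n → ℝ | ∃ x : Fin r → ℝ, (∀ i ∈ σ', 0 < x i) ∧ ∑ i ∈ σ', x i = 1 ∧
      p = ∑ i ∈ σ', x i • (fun j => (a i j : ℝ))}
  cover : ∀ p ∈ convexHull ℝ ((fun i => (fun j => (a i j : ℝ) : Fin n → ℝ)) '' (t : Set (Fin r))),
    ∃ σ ∈ S,
      p ∈ convexHull ℝ ((fun i => (fun j => (a i j : ℝ) : Fin n → ℝ)) '' (σ : Set (Fin r)))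

theorem exists_cones (a : Fin r → (Fin n →₀ ℕ)) (t : Finset (Fin r)) : Nonempty (Cones a t) := by
  obtain ⟨𝒟⟩ := Pool.Agent.H60.ConeExist.exists_faceCones a t
  exact ⟨⟨𝒟.m, 𝒟.w, 𝒟.mem, 𝒟.indep, 𝒟.disj, 𝒟.cover⟩⟩

theorem exists_tri (a : Fin r → (Fin n →₀ ℕ)) (t : Finset (Fin r)) : Nonempty (Tri a t) := by
  obtain ⟨𝒯⟩ := Pool.Agent.H60.ConeExist.exists_faceTriang a t
  exact ⟨⟨𝒯.S, 𝒯.sub, 𝒯.card, 𝒯.indep, 𝒯.disj, 𝒯.cover⟩⟩

/-- The number of torsion elements of `ℤ^κ / ⟨v⟩`: the index of the lattice spanned by the `v_i` in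
the group of the integral points of the real vector space spanned by them. -/
noncomputable def idx {κ ι : Type*} (v : ι → κ → ℤ) : ℕ :=
  Nat.card (Submodule.torsion ℤ ((κ → ℤ) ⧸ Submodule.span ℤ (Set.range v)))

/-- `J_t(s) = ∑_C mult(C) ∏_{w ∈ C} 1 / (∑_j ν_j w_j + N(w) s)`, `N(w) = min_i a_i · w`, the sum
over the cones `C` of a decomposition `𝒟` of `D_t`; `mult(C)` is the index of the lattice spanned by
the generators. -/
noncomputable def Jt (ν : Fin n → ℚ) {a : Fin r → (Fin n →₀ ℕ)} {t : Finset (Fin r)}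
    (𝒟 : Cones a t) : RatFunc ℂ :=
  ∑ C, (idx (fun c j => (𝒟.w C c j : ℤ)) : RatFunc ℂ) *
    ∏ c, (RatFunc.C ((∑ j, ν j * (𝒟.w C c j : ℚ) : ℚ) : ℂ) +
      ((⨅ i, ∑ j, a i j * 𝒟.w C c j : ℕ) : RatFunc ℂ) * RatFunc.X)⁻¹

/-- The normalised volume `(dim t)! Vol(t)`, the sum of those of the simplices of a triangulation;
that of the simplex with the vertices `a_i`, `i ∈ σ`, is the index of the lattice spanned by the
`(1, a_i)`. -/
noncomputable def vol {a : Fin r → (Fin n →₀ ℕ)} {t : Finset (Fin r)} (𝒯 : Tri a t) : ℕ :=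
  ∑ σ ∈ 𝒯.S, idx (fun i : σ => Sum.elim (fun _ : Unit => (1 : ℤ)) (fun j => (a i j : ℤ)))

open Classical in
/-- The formula of Denef and Loeser, with the sums over the faces `t ∈ 𝓕`, for some decompositions
of the cones `D_t` and some triangulations of the faces:
`∑_{dim t = 0} J_t(s) + s / (s + 1) ∑_{dim t ≥ 1} (-1)^{dim t} (dim t)! Vol(t) J_t(s)`. -/
noncomputable def DL (ν : Fin n → ℚ) (a : Fin r → (Fin n →₀ ℕ)) (𝓕 : Finset (Fin r) → Prop) :
    RatFunc ℂ :=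
  ∑ t ∈ univ.filter (fun t : Finset (Fin r) => 𝓕 t ∧ rk a t = 1),
      Jt ν (exists_cones a t).some +
    RatFunc.X / (RatFunc.X + 1) *
      ∑ t ∈ univ.filter (fun t : Finset (Fin r) => 𝓕 t ∧ 2 ≤ rk a t),
        (-1) ^ (rk a t - 1) * (vol (exists_tri a t).some : RatFunc ℂ) *
          Jt ν (exists_cones a t).some

/-- The global topological zeta function of a nondegenerate polynomial with the exponents `a_i`, for
the form `∏ x_j^{ν_j - 1} dx_j`: all faces `t = {i | a_i · k minimal}`, `k ≥ 0`. -/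
noncomputable def ZG (ν : Fin n → ℚ) (a : Fin r → (Fin n →₀ ℕ)) : RatFunc ℂ :=
  DL ν a (fun t => ∃ k : Fin n → ℝ, (∀ j, 0 ≤ k j) ∧
    ∀ l, l ∈ t ↔ ∀ l', ∑ j, (a l j : ℝ) * k j ≤ ∑ j, (a l' j : ℝ) * k j)

/-- The local topological zeta function at the origin of a nondegenerate germ with the exponents
`a_i`, for the form `∏ x_j^{ν_j - 1} dx_j`: the compact faces, `t = {i | a_i · k minimal}`,
`k > 0`. -/
noncomputable def ZL (ν : Fin n → ℚ) (a : Fin r → (Fin n →₀ ℕ)) : RatFunc ℂ :=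
  DL ν a (fun t => ∃ k : Fin n → ℝ, (∀ j, 0 < k j) ∧
    ∀ l, l ∈ t ↔ ∀ l', ∑ j, (a l j : ℝ) * k j ≤ ∑ j, (a l' j : ℝ) * k j)

/-- `∑ κ_i x^{a_i}` is nondegenerate with respect to all faces of the Newton polytope: for every
weight vector `w ∈ ℤ^n` the part `f_w`, the sum of the terms with `w · a_i` minimal, has no
singular zero with nonzero coordinates. -/
def NDa {n r : ℕ} (a : Fin r → (Fin n →₀ ℕ)) (κ : Fin r → ℂ) : Prop :=
  ∀ (w : Fin n → ℤ) (x : Fin n → ℂ), (∀ j, x j ≠ 0) →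
    ¬ ((∑ i with ∀ i', ∑ j, w j * a i j ≤ ∑ j, w j * a i' j, κ i * ∏ j, x j ^ (a i j)) = 0 ∧
      ∀ k, (∑ i with ∀ i', ∑ j, w j * a i j ≤ ∑ j, w j * a i' j,
        κ i * (a i k : ℂ) * ∏ j, x j ^ (a i j)) = 0)

/-- `∑ κ_i x^{a_i}` is nondegenerate with respect to the compact faces of the Newton polyhedron: the
same for the weight vectors with positive entries. -/
def NDc {n r : ℕ} (a : Fin r → (Fin n →₀ ℕ)) (κ : Fin r → ℂ) : Prop :=
  ∀ w : Fin n → ℤ, (∀ j, 0 < w j) → ∀ x : Fin n → ℂ, (∀ j, x j ≠ 0) →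
    ¬ ((∑ i with ∀ i', ∑ j, w j * a i j ≤ ∑ j, w j * a i' j, κ i * ∏ j, x j ^ (a i j)) = 0 ∧
      ∀ k, (∑ i with ∀ i', ∑ j, w j * a i j ≤ ∑ j, w j * a i' j,
        κ i * (a i k : ℂ) * ∏ j, x j ^ (a i j)) = 0)

/-- `Z(c s + d)`. -/
noncomputable def aff (c d : ℂ) (Z : RatFunc ℂ) : RatFunc ℂ :=
  RatFunc.eval RatFunc.C (RatFunc.C c * RatFunc.X + RatFunc.C d) Z

/-- The zeta function `Y` of `G`, if `Z` is that of `G + u_1 v_1 + ⋯ + u_e v_e`:
`((s + 1) Y(s) - 1) / s` is the value of `((s + 1) Z(s) - 1) / s` at `s - e`. -/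
noncomputable def unst (e : ℕ) (Z : RatFunc ℂ) : RatFunc ℂ :=
  1 / (RatFunc.X + 1) + RatFunc.X / (RatFunc.X + 1) *
    aff 1 (-(e : ℂ)) (((RatFunc.X + 1) * Z - 1) / RatFunc.X)

end Pool.Agent.H56.Zt
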