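import Pool.Agent.H56.Zt.Defs
import Pool.Agent.H60.ConeExist
import Pool.Agent.H56.CT.SD0

/-!
# Comparison of the definitions
-/

set_option autoImplicit false

namespace Pool.Agent.H56.Zt

open Finset

variable {n r : ℕ}

theorem FE_eq (F : MvPolynomial (Fin n) ℂ) (b : Polynomial ℂ) (P : Op n) (h : FE F b P) :
    H22.FunctionalEquation F b P := h

/-- The old form of a decomposition. -/
def Cones.old {a : Fin r → (Fin n →₀ ℕ)} {t : Finset (Fin r)} (𝒟 : Cones a t) :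
    H22.FaceCones a t where
  m := 𝒟.m
  w := 𝒟.w
  mem := 𝒟.mem
  indep := 𝒟.indep
  disj := 𝒟.disj
  cover := 𝒟.cover

/-- The old form of a triangulation. -/
def Tri.old {a : Fin r → (Fin n →₀ ℕ)} {t : Finset (Fin r)} (𝒯 : Tri a t) :
    H22.FaceTriang a t where
  S := 𝒯.S
  sub := 𝒯.sub
  card := 𝒯.card
  indep := 𝒯.indep
  disj := 𝒯.disj
  cover := 𝒯.cover

/-- The chosen decompositions. -/
noncomputable def oC (a : Fin r → (Fin n →₀ ℕ)) (t : Finset (Fin r)) : H22.FaceCones a t :=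
  (exists_cones a t).some.old

/-- The chosen triangulations. -/
noncomputable def oT (a : Fin r → (Fin n →₀ ℕ)) (t : Finset (Fin r)) : H22.FaceTriang a t :=
  (exists_tri a t).some.old

theorem Jt_one {a : Fin r → (Fin n →₀ ℕ)} {t : Finset (Fin r)} (𝒟 : Cones a t) :
    Jt (fun _ => 1) 𝒟 = H22.JfunG a t 𝒟.old := by
  unfold Jt H22.JfunG
  refine Finset.sum_congr rfl fun C _ => ?_
  congr 1
  refine Finset.prod_congr rfl fun c _ => ?_
  congr 2
  have h : ((∑ j, (1 : ℚ) * (𝒟.w C c j : ℚ) : ℚ) : ℂ) = ((∑ j, 𝒟.w C c j : ℕ) : ℂ) := by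
    push_cast
    simp
  rw [h]
  simp only [map_natCast]
  rfl

theorem ZL_eq (ν : Fin n → ℚ) (a : Fin r → (Fin n →₀ ℕ)) :
    ZL ν a = CT.topZetaLW ν a (oC a) (oT a) := rfl

theorem ZL_one (a : Fin r → (Fin n →₀ ℕ)) :
    ZL (fun _ => 1) a = H22.T7.topZetaL a (oC a) (oT a) := by
  unfold ZL DL H22.T7.topZetaL
  simp only [Jt_one]
  rfl

theorem ZG_one (a : Fin r → (Fin n →₀ ℕ)) :
    ZG (fun _ => 1) a = H22.topZetaG a (oC a) (oT a) := by
  unfold ZG DL H22.topZetaG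
  simp only [Jt_one]
  rfl

end Pool.Agent.H56.Zt
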