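import Pool.Agent.H56.Zt.Defs

/-!
# Locally stably nondegenerate hypersurfaces: definitions
-/

set_option autoImplicit false

namespace Pool.Agent.H56.Zt

open Finset

/-- The germ `G` is stably nondegenerate: for some `e ≥ 0` the germ
`G + u_1 v_1 + ⋯ + u_e v_e` is, in suitable formal coordinates, `∑ κ_i x^{a_i} + H`, nondegenerate
with respect to the compact faces of the Newton polyhedron of the `a_i`, where all exponents of `H`
lie above the compact faces; and every coordinate axis contains an exponent `a_i` (convenient), or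
`H = 0` and `∑ κ_i x^{a_i}` is quasi-homogeneous with positive weights. -/
structure SN {m : ℕ} (G : MvPowerSeries (Fin m) ℂ) where
  /-- the number of summands `u_k v_k` -/
  e : ℕ
  /-- the number of coordinates -/
  n : ℕ
  pos : 0 < n
  /-- the number of exponents -/
  r : ℕ
  /-- the exponents -/
  a : Fin r → (Fin n →₀ ℕ)
  inj : Function.Injective a
  ne : ∀ i, a i ≠ 0
  /-- the coefficients -/
  κ : Fin r → ℂ
  κ0 : ∀ i, κ i ≠ 0
  nd : NDc a κ
  /-- the terms above the Newton polyhedron -/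
  H : MvPowerSeries (Fin n) ℂ
  high : ∀ ρ, MvPowerSeries.coeff ρ H ≠ 0 → ∀ w : Fin n → ℕ, (∀ j, 0 < w j) →
    ⨅ i, ∑ j, a i j * w j < ∑ j, ρ j * w j
  alt : (∀ j, ∃ i k, a i = Finsupp.single j k) ∨
    (H = 0 ∧ ∃ (w : Fin n → ℕ) (d : ℕ), (∀ j, 0 < w j) ∧ ∀ i, ∑ j, a i j * w j = d)
  /-- the change of coordinates -/
  φ : MvPowerSeries (Fin m ⊕ (Fin e ⊕ Fin e)) ℂ ≃ₐ[ℂ] MvPowerSeries (Fin n) ℂ
  eq : φ (MvPowerSeries.rename Sum.inl G + ∑ k, MvPowerSeries.X (Sum.inr (Sum.inl k)) *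
      MvPowerSeries.X (Sum.inr (Sum.inr k))) =
    ∑ i, MvPowerSeries.monomial (a i) (κ i) + H

/-- The local topological zeta function of `G`. -/
noncomputable def SN.Z {m : ℕ} {G : MvPowerSeries (Fin m) ℂ} (T : SN G) : RatFunc ℂ :=
  unst T.e (ZL (fun _ => 1) T.a)

/-- In suitable formal coordinates the germ of `F` at `p` is a unit times a product of powers
`G_j^{N_j}` of stably nondegenerate germs `G_j` in disjoint sets of variables. -/
structure SPt {n : ℕ} (F : MvPolynomial (Fin n) ℂ) (p : Fin n → ℂ) where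
  /-- the change of coordinates -/
  φ : MvPowerSeries (Fin n) ℂ ≃ₐ[ℂ] MvPowerSeries (Fin n) ℂ
  /-- the unit -/
  u : MvPowerSeries (Fin n) ℂ
  hu : IsUnit u
  /-- the number of factors -/
  q : ℕ
  /-- the numbers of variables -/
  m : Fin q → ℕ
  /-- the variables of the factors -/
  ι : ∀ j, Fin (m j) ↪ Fin n
  disj : ∀ j j', j ≠ j' → ∀ x y, ι j x ≠ ι j' y
  /-- the exponents -/
  N : Fin q → ℕ
  Npos : ∀ j, 0 < N j
  /-- the factors -/
  G : ∀ j, MvPowerSeries (Fin (m j)) ℂ
  /-- the factors are stably nondegenerate -/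
  T : ∀ j, SN (G j)
  eq : φ ((MvPolynomial.aeval (fun j => MvPolynomial.X j + MvPolynomial.C (p j)) F :
      MvPolynomial (Fin n) ℂ) : MvPowerSeries (Fin n) ℂ) =
    u * ∏ j, (MvPowerSeries.rename (ι j) (G j)) ^ (N j)

/-- The local topological zeta function `∏_j Z_{G_j}(N_j s)` of `F` at `p`. -/
noncomputable def SPt.Z {n : ℕ} {F : MvPolynomial (Fin n) ℂ} {p : Fin n → ℂ} (T : SPt F p) :
    RatFunc ℂ :=
  ∏ j, aff (T.N j) 0 (T.T j).Z

end Pool.Agent.H56.Zt
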