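import Pool.Agent.H56.Zt.Germ
import Pool.Agent.H56.Zt.Eqs
import Pool.Agent.H22.T7.FIN

/-!
# Comparison with the definitions of `H22.T7`
-/

set_option autoImplicit false

namespace Pool.Agent.H56.Zt

open Finset

/-- The old form. -/
noncomputable def SN.old {m : ℕ} {G : MvPowerSeries (Fin m) ℂ} (T : SN G) : H22.T7.SND G where
  e := T.e
  m' := T.n
  pos := T.pos
  r := T.r
  a := T.a
  inj := T.inj
  ne := T.ne
  κ := T.κ
  κ0 := T.κ0
  nd := T.nd
  H := T.H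
  high := T.high
  alt := T.alt
  φ := T.φ
  eq := T.eq
  𝒟 := oC T.a
  𝒯 := oT T.a

theorem SN.old_Z {m : ℕ} {G : MvPowerSeries (Fin m) ℂ} (T : SN G) : T.old.Z = T.Z := by
  unfold SN.Z H22.T7.SND.Z
  rw [ZL_one]
  rfl

/-- The old form. -/
noncomputable def SPt.old {n : ℕ} {F : MvPolynomial (Fin n) ℂ} {p : Fin n → ℂ} (T : SPt F p) :
    H22.T7.GT F p where
  φ := T.φ
  u := T.u
  hu := T.hu
  q := T.q
  m := T.m
  ι := T.ι
  disj := T.disj
  N := T.N
  Npos := T.Npos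
  G := T.G
  T := fun j => (T.T j).old
  eq := T.eq

theorem SPt.old_Z {n : ℕ} {F : MvPolynomial (Fin n) ℂ} {p : Fin n → ℂ} (T : SPt F p) :
    T.old.Z = T.Z := by
  unfold SPt.Z H22.T7.GT.Z
  refine Finset.prod_congr rfl fun j _ => ?_
  rw [← SN.old_Z]
  rfl

end Pool.Agent.H56.Zt
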