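import Pool.Agent.H56.Zt.Comp
import Pool.Agent.H56.Zt.Eqs
import Pool.Agent.H56.CT.CTM

/-!
# Comparison with the definitions of `H56.CT`
-/

set_option autoImplicit false

namespace Pool.Agent.H56.Zt

open Finset
open Pool.Agent.H56.CT (R2 co Str Res)

/-- The old form. -/
noncomputable def Comp.old {m : ℕ} {G : MvPowerSeries (Fin m × Fin 2) ℂ} (T : Comp G) :
    CT.CTG G where
  pos := T.pos
  r := T.r
  a := T.a
  inj := T.inj
  ne := T.ne
  κ := T.κ
  κ0 := T.κ0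
  nd := T.nd
  conv := T.conv
  f := T.f
  f0 := T.f0
  fne := T.fne
  eq := T.eq
  M := fun k => resM (T.f k) (T.fne k) (T.f0 k)
  res := fun k => (Pool.Agent.H56.RE.res_exists (T.f k) (T.fne k) (T.f0 k)).choose_spec
  𝒟 := fun S => oC (pbE T.a S)
  𝒯 := fun S => oT (pbE T.a S)

theorem Comp.old_Z {m : ℕ} {G : MvPowerSeries (Fin m × Fin 2) ℂ} (T : Comp G) :
    T.old.Z = T.Z := rfl

/-- The old form. -/
noncomputable def CPt.old {n : ℕ} {F : MvPolynomial (Fin n) ℂ} {p : Fin n → ℂ} (T : CPt F p) :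
    CT.CPt F p where
  e := T.e
  φ := T.φ
  u := T.u
  hu := T.hu
  q := T.q
  m := T.m
  ι := T.ι
  disj := T.disj
  N := T.N
  Npos := T.Npos
  G := T.G
  T := fun j => (T.T j).old
  eq := T.eq

theorem CPt.old_Z {n : ℕ} {F : MvPolynomial (Fin n) ℂ} {p : Fin n → ℂ} (T : CPt F p) :
    T.old.Z = T.Z := rfl

end Pool.Agent.H56.Zt
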